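import Mathlib
import Pool.Agent.N230.FL.End

set_option autoImplicit false

/-!
MP_ad338c_an, Q1 and Q2: for every subgroup of the circle which contains an element of infinite
order, in particular for every virtually infinite cyclic one, the group of interval exchanges with
flips with break points and translation parts in it is not stably realizable, hence not realizable.
-/

namespace Pool.Agent.Results.MP_ad338c_an.NotStablyRealizable

open Equiv Topology

/-- the circle `ℝ/ℤ` -/
abbrev S : Type := AddCircle (1 : ℝ)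

/-- continuity off a finite set of a permutation and of its inverse -/
def IsPC (f : Perm S) : Prop :=
  {x | ¬ ContinuousAt f x}.Finite ∧ {x | ¬ ContinuousAt (f⁻¹ : Perm S) x}.Finite

theorem IsPC.mul {f g : Perm S} (hf : IsPC f) (hg : IsPC g) : IsPC (f * g) := by
  have key : ∀ f g : Perm S, {x | ¬ ContinuousAt f x}.Finite → {x | ¬ ContinuousAt g x}.Finite →
      {x | ¬ ContinuousAt (f * g : Perm S) x}.Finite := by
    intro f g hf hg
    refine (hg.union (hf.preimage g.injective.injOn)).subset ?_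
    intro x hx
    by_contra hcon
    simp only [Set.mem_union, Set.mem_preimage, Set.mem_ofPred_eq, not_or, not_not] at hcon
    exact hx (hcon.2.comp hcon.1)
  obtain ⟨hf, hf'⟩ := hf
  obtain ⟨hg, hg'⟩ := hg
  refine ⟨key f g hf hg, ?_⟩
  rw [mul_inv_rev]
  exact key _ _ hg' hf'

theorem IsPC.one : IsPC 1 := by
  have h : {x : S | ¬ ContinuousAt (1 : Perm S) x} = ∅ := by
    ext x
    simp only [Set.mem_ofPred_eq, Set.mem_empty_iff_false, iff_false, not_not]
    exact continuousAt_id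
  refine ⟨?_, ?_⟩
  · rw [h]; exact Set.finite_empty
  · rw [inv_one, h]; exact Set.finite_empty

theorem IsPC.inv {f : Perm S} (h : IsPC f) : IsPC f⁻¹ := ⟨h.2, by simpa using h.1⟩

/-- the group of all permutations of the circle which, together with their inverses, are continuous
at all but finitely many points -/
def PChat : Subgroup (Perm S) where
  carrier := {f | IsPC f}
  mul_mem' := IsPC.mul
  one_mem' := IsPC.one
  inv_mem' := IsPC.inv

/-- finite support -/
def FinSupp (f : Perm S) : Prop := {x | f x ≠ x}.Finite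

theorem FinSupp.mul {f g : Perm S} (hf : FinSupp f) (hg : FinSupp g) : FinSupp (f * g) := by
  refine (Set.Finite.union hf hg).subset ?_
  intro x hx
  by_contra hcon
  simp only [Set.mem_union, Set.mem_ofPred_eq, not_or, not_not] at hcon
  apply hx
  show f (g x) = x
  rw [hcon.2, hcon.1]

theorem FinSupp.one : FinSupp 1 := by
  have h : {x : S | (1 : Perm S) x ≠ x} = ∅ := by
    ext x
    simp
  show Set.Finite _
  rw [h]; exact Set.finite_empty

theorem FinSupp.inv {f : Perm S} (hf : FinSupp f) : FinSupp f⁻¹ := by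
  refine Set.Finite.subset hf ?_
  intro x hx h
  apply hx
  show f⁻¹ x = x
  rw [Perm.inv_eq_iff_eq]
  exact h.symm

/-- the finitely supported permutations -/
def Sfin : Subgroup PChat where
  carrier := {f | FinSupp f}
  mul_mem' := FinSupp.mul
  one_mem' := FinSupp.one
  inv_mem' := FinSupp.inv

theorem sfin_normal : Sfin.Normal := ⟨by
  intro n hn g
  refine (Set.Finite.image (g : Perm S) hn).subset ?_
  intro x hx
  refine ⟨(g : Perm S)⁻¹ x, ?_, (g : Perm S).apply_symm_apply x⟩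
  intro h
  apply hx
  show (g : Perm S) ((n : Perm S) ((g : Perm S)⁻¹ x)) = x
  rw [h]
  exact (g : Perm S).apply_symm_apply x⟩

instance : Sfin.Normal := sfin_normal

/-- the group of piecewise continuous permutations of the circle modulo finitely supported
permutations -/
def PC : Type := PChat ⧸ Sfin

instance instPC : Group PC := inferInstanceAs (Group (PChat ⧸ Sfin))

/-- the quotient map -/
def π : PChat →* PC := QuotientGroup.mk' Sfin

/-- off a finite subset of `Λ`, the map is locally of the form `x ↦ x + c` or `x ↦ -x + c` with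
`c` in `Λ` -/
def PiecewiseIsometric (Λ : AddSubgroup S) (f : S → S) : Prop :=
  ∃ E : Set S, E.Finite ∧ E ⊆ Λ ∧ ∀ x ∉ E, ∃ c ∈ Λ,
    (∀ᶠ y in 𝓝 x, f y = y + c) ∨ (∀ᶠ y in 𝓝 x, f y = -y + c)

/-- the group of interval exchanges with flips with break points and translation parts in `Λ` -/
def IET (Λ : AddSubgroup S) : Subgroup PC :=
  Subgroup.closure {γ | ∃ f : PChat, π f = γ ∧ PiecewiseIsometric Λ (f : Perm S)}

/-- some subgroup of `PChat` is mapped bijectively onto `Γ` -/
def Realizable (Γ : Subgroup PC) : Prop := ∃ H : Subgroup PChat, Set.BijOn π H Γ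

/-- the permutation `g` of `S ⊔ Y` coincides off a finite set with the map which is `f` on `S` and
the identity on `Y` -/
def NearExt.{u} {Y : Type u} (f : Perm S) (g : Perm (S ⊕ Y)) : Prop :=
  {x : S ⊕ Y | g x ≠ Sum.map f id x}.Finite

/-- the homomorphism `Φ` lifts the near action of `Γ` on `S ⊔ Y`, trivial on `Y` -/
def Lifts.{u} {Y : Type u} (Γ : Subgroup PC) (Φ : Γ →* Perm (S ⊕ Y)) : Prop :=
  ∀ (f : PChat) (hf : π f ∈ Γ), NearExt (f : Perm S) (Φ ⟨π f, hf⟩)

/-- for some set `Y` the near action of `Γ` on `S ⊔ Y`, trivial on `Y`, is induced by an action: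
there is a homomorphism to the permutations of `S ⊔ Y` which maps the class of `f` to a permutation
which differs from `f` on `S` and from the identity on `Y` at finitely many points only -/
def StablyRealizable.{u} (Γ : Subgroup PC) : Prop :=
  ∃ (Y : Type u) (Φ : Γ →* Perm (S ⊕ Y)), Lifts Γ Φ

open Pool.Agent.N230

theorem continuousAt_of {f : S → S} {x c : S}
    (h : (∀ᶠ y in 𝓝 x, f y = y + c) ∨ (∀ᶠ y in 𝓝 x, f y = -y + c)) : ContinuousAt f x := by
  rcases h with h | h
  · have h2 : ContinuousAt (fun y : S => y + c) x := by fun_prop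
    exact h2.congr (h.mono fun y hy => hy.symm)
  · have h2 : ContinuousAt (fun y : S => -y + c) x := by fun_prop
    exact h2.congr (h.mono fun y hy => hy.symm)

theorem finite_of_PI {Λ : AddSubgroup S} {f : S → S} (h : PiecewiseIsometric Λ f) :
    {x | ¬ ContinuousAt f x}.Finite := by
  obtain ⟨E, hE, _, h⟩ := h
  refine hE.subset fun x hx => ?_
  by_contra hcon
  obtain ⟨c, _, hc⟩ := h x hcon
  exact hx (continuousAt_of hc)

theorem PI_rot {Λ : AddSubgroup S} {a : S} (ha : a ∈ Λ) : PiecewiseIsometric Λ (FL.rot a) :=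
  ⟨∅, Set.finite_empty, by simp, fun _ _ => ⟨a, ha, Or.inl (Filter.Eventually.of_forall
    fun _ => rfl)⟩⟩

theorem PI_refl (Λ : AddSubgroup S) : PiecewiseIsometric Λ FL.refl :=
  ⟨∅, Set.finite_empty, by simp, fun _ _ => ⟨0, Λ.zero_mem, Or.inr (Filter.Eventually.of_forall
    fun y => by simp)⟩⟩

theorem isOpen_arc (u v : ℝ) (h0 : 0 ≤ u) (h1 : v ≤ 1) :
    IsOpen {x : S | u < FL.cc x ∧ FL.cc x < v} := by
  have ho : IsOpen ((fun t : ℝ => (t : S)) '' Set.Ioo u v) :=
    QuotientAddGroup.isOpenMap_coe _ isOpen_Ioo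
  convert ho using 1
  ext x
  constructor
  · rintro ⟨h2, h3⟩
    exact ⟨FL.cc x, ⟨h2, h3⟩, FL.coe_cc x⟩
  · rintro ⟨t, ⟨h2, h3⟩, rfl⟩
    show u < FL.cc (t : S) ∧ FL.cc (t : S) < v
    rw [FL.cc_coe (by linarith) (by linarith)]
    exact ⟨h2, h3⟩

theorem PI_flip {Λ : AddSubgroup S} {l : ℝ} (h0 : 0 < l) (h1 : l < 1) (hl : (l : S) ∈ Λ) :
    PiecewiseIsometric Λ (FL.flip l) := by
  refine ⟨{0, (l : S)}, Set.toFinite _, ?_, ?_⟩
  · rintro x (rfl | rfl)
    · exact Λ.zero_mem
    · exact hl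
  · intro x hx
    simp only [Set.mem_insert_iff, Set.mem_singleton_iff, not_or] at hx
    have hx0 : 0 < FL.cc x := FL.cc_pos hx.1
    rcases lt_trichotomy (FL.cc x) l with h | h | h
    · refine ⟨(l : S), hl, Or.inr ?_⟩
      filter_upwards [(isOpen_arc 0 l le_rfl h1.le).mem_nhds ⟨hx0, h⟩] with y hy
      rw [FL.flip_in hy.1 hy.2 h1.le]
      abel
    · exact absurd (by rw [← FL.coe_cc x, h]) hx.2
    · refine ⟨0, Λ.zero_mem, Or.inl ?_⟩
      filter_upwards [(isOpen_arc l 1 h0.le le_rfl).mem_nhds ⟨h, FL.cc_lt x⟩] with y hy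
      rw [FL.flip_out (Or.inl hy.1.le), add_zero]

theorem mem_PChat {Λ : AddSubgroup S} {f : Perm S} (h : PiecewiseIsometric Λ f)
    (h' : PiecewiseIsometric Λ (f⁻¹ : Perm S)) : f ∈ PChat := ⟨finite_of_PI h, finite_of_PI h'⟩

theorem refl_inv : (FL.refl)⁻¹ = FL.refl := by
  rw [inv_eq_iff_mul_eq_one, FL.Data.refl_mul_refl]

theorem flip_inv (l : ℝ) : (FL.flip l)⁻¹ = FL.flip l := by
  rw [inv_eq_iff_mul_eq_one, FL.flip_mul_self]

theorem stably_of {Γ : Subgroup PC} (h : Realizable Γ) : StablyRealizable.{0} Γ := by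
  obtain ⟨H, hH⟩ := h
  let e0 : H →* Γ := MonoidHom.codRestrict (MonoidHom.comp π H.subtype) Γ
    (fun x => hH.mapsTo x.2)
  have he0 : Function.Bijective e0 := by
    constructor
    · intro x y hxy
      have h1 : π (x : PChat) = π (y : PChat) := congrArg Subtype.val hxy
      exact Subtype.ext (hH.injOn x.2 y.2 h1)
    · rintro ⟨γ, hγ⟩
      obtain ⟨x, hx, hxγ⟩ := hH.surjOn hγ
      exact ⟨⟨x, hx⟩, Subtype.ext hxγ⟩
  let e : H ≃* Γ := MulEquiv.ofBijective e0 he0
  let q : PChat →* Perm (S ⊕ Empty) :=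
    { toFun := fun f => Equiv.sumCongr (f : Perm S) (Equiv.refl Empty)
      map_one' := by
        ext x
        rcases x with x | x
        · rfl
        · exact x.elim
      map_mul' := by
        intro f g
        ext x
        rcases x with x | x
        · rfl
        · exact x.elim }
  refine ⟨Empty, (q.comp H.subtype).comp e.symm.toMonoidHom, ?_⟩
  intro f hf
  set g : H := e.symm ⟨π f, hf⟩ with hg
  have h1 : π (g : PChat) = π f := by
    have h2 : e g = ⟨π f, hf⟩ := by rw [hg, MulEquiv.apply_symm_apply]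
    exact congrArg Subtype.val h2
  have h3 : ((g : PChat))⁻¹ * f ∈ Sfin := QuotientGroup.eq.1 h1
  have h4 : {x | (((g : PChat))⁻¹ * f : PChat).1 x ≠ x}.Finite := h3
  refine (h4.image (Sum.inl : S → S ⊕ Empty)).subset ?_
  rintro (x | x) hx
  · refine ⟨x, ?_, rfl⟩
    intro h5
    apply hx
    show (Sum.inl ((g : PChat).1 x) : S ⊕ Empty) = Sum.inl (f.1 x)
    congr 1
    have h6 : ((g : PChat).1)⁻¹ (f.1 x) = x := h5
    rw [Perm.inv_eq_iff_eq] at h6
    exact h6.symm
  · exact x.elim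

theorem not_stably.{u} (Λ : AddSubgroup S) (h : ∃ a ∈ Λ, ∀ n : ℕ, 0 < n → n • a ≠ 0) :
    ¬ StablyRealizable.{u} (IET Λ) := by
  classical
  obtain ⟨a, ha, hinf⟩ := h
  rintro ⟨Y, Φ, hΦ⟩
  have hmem : ∀ f : Perm S, ∀ (hf : f ∈ PChat), PiecewiseIsometric Λ f →
      π ⟨f, hf⟩ ∈ IET Λ := fun f hf h => Subgroup.subset_closure ⟨⟨f, hf⟩, rfl, h⟩
  have hαa : ((FL.cc a : ℝ) : S) = a := FL.coe_cc a
  obtain ⟨Θ, hΘ⟩ : ∃ Θ : Perm S → Perm (S ⊕ Y), ∀ (f : PChat) (hf : π f ∈ IET Λ),
      Θ (f : Perm S) = Φ ⟨π f, hf⟩ :=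
    ⟨fun f => if h : ∃ hf : f ∈ PChat, π ⟨f, hf⟩ ∈ IET Λ then Φ ⟨π ⟨f, h.1⟩, h.2⟩ else 1,
      fun f hf => dif_pos (⟨f.2, hf⟩ : ∃ hf : (f : Perm S) ∈ PChat, π ⟨f, hf⟩ ∈ IET Λ)⟩
  refine FL.Data.false (Y := Y)
    { G := ((IET Λ).comap π).map PChat.subtype
      Θ := Θ
      map_mul := ?_
      near := ?_
      congr := ?_
      α := FL.cc a
      hα := ?_
      hrot := ?_
      hrefl := ?_
      hflip := ?_ }
  · rintro _ ⟨f, hf, rfl⟩ _ ⟨g, hg, rfl⟩
    have h3 : π (f * g) ∈ IET Λ := by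
      rw [map_mul]
      exact (IET Λ).mul_mem hf hg
    show Θ ((f * g : PChat) : Perm S) = Θ (f : Perm S) * Θ (g : Perm S)
    rw [hΘ f hf, hΘ g hg, hΘ (f * g) h3, ← map_mul]
    rfl
  · rintro _ ⟨f, hf, rfl⟩
    have h1 := hΘ f hf
    refine (hΦ f hf).subset ?_
    rw [← h1]
    rintro (x | y) hx
    · exact hx
    · exact hx
  · rintro _ ⟨f, hf, rfl⟩ _ ⟨g, hg, rfl⟩ hfg
    show Θ (f : Perm S) = Θ (g : Perm S)
    rw [hΘ f hf, hΘ g hg]
    have h4 : π f = π g := by
      apply QuotientGroup.eq.2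
      show {x | ((f⁻¹ * g : PChat) : Perm S) x ≠ x}.Finite
      refine Set.Finite.subset hfg ?_
      intro x hx h3
      apply hx
      show ((f : Perm S))⁻¹ ((g : Perm S) x) = x
      rw [Perm.inv_eq_iff_eq]
      exact h3.symm
    congr 2
  · rintro ⟨q, hq⟩
    apply hinf q.den q.den_pos
    rw [← hαa, ← hq]
    rw [← AddCircle.coe_nsmul, nsmul_eq_mul, AddCircle.coe_eq_zero_iff]
    refine ⟨q.num, ?_⟩
    have : (q.den : ℝ) * (q : ℝ) = q.num := by
      have h2 : (q.den : ℚ) * q = q.num := by rw [mul_comm]; exact Rat.mul_den_eq_num q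
      exact_mod_cast h2
    rw [this]
    simp
  · rw [hαa]
    have h1 : FL.rot a ∈ PChat := mem_PChat (PI_rot ha) (by
      rw [FL.rot_inv]
      exact PI_rot (Λ.neg_mem ha))
    exact ⟨⟨_, h1⟩, hmem _ h1 (PI_rot ha), rfl⟩
  · have h1 : FL.refl ∈ PChat := mem_PChat (PI_refl Λ) (by
      rw [refl_inv]
      exact PI_refl Λ)
    exact ⟨⟨_, h1⟩, hmem _ h1 (PI_refl Λ), rfl⟩
  · rintro l h0 h1 ⟨i, hi⟩
    have hl : (l : S) ∈ Λ := by
      rw [hi, hαa]
      exact Λ.zsmul_mem ha i
    have h2 : FL.flip l ∈ PChat := mem_PChat (PI_flip h0 h1 hl) (by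
      rw [flip_inv]
      exact PI_flip h0 h1 hl)
    exact ⟨⟨_, h2⟩, hmem _ h2 (PI_flip h0 h1 hl), rfl⟩

/-- For every subgroup `Λ` of the circle which contains an element of infinite order (in
particular for every virtually infinite cyclic one) the group of interval exchanges with flips with
break points and translation parts in `Λ` is not stably realizable, and not realizable. -/
theorem result.{u} (Λ : AddSubgroup S) (h : ∃ a ∈ Λ, ∀ n : ℕ, 0 < n → n • a ≠ 0) :
    ¬ StablyRealizable.{u} (IET Λ) ∧ ¬ Realizable (IET Λ) :=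
  ⟨not_stably Λ h, fun hR => not_stably.{0} Λ h (stably_of hR)⟩

end Pool.Agent.Results.MP_ad338c_an.NotStablyRealizable
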